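import Mathlib
import Pool.Agent.H622.RT

set_option autoImplicit false

/-!
The asymptotic constants of all the divergent trajectories of the 3x+1 map on the integers together. A
divergent trajectory satisfies `T^k n ~ w(n) 3^(o_k) / 2^k`, `o_k` the number of odd terms among the first
`k`. For trajectories without common elements the numbers `|log (w(n) / n)| ^ s` are summable, with an
absolute bound, for some `s` below the entropy exponent.
-/

namespace Pool.Agent.Results.MP_ff4775_nt.AllDivergentTrajectories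

open Finset Filter

/-- The 3x+1 map on the integers. -/
def T (n : ℤ) : ℤ := if n % 2 = 0 then n / 2 else (3 * n + 1) / 2

/-- The trajectory of `n` is divergent. -/
def Divergent (n : ℤ) : Prop := Tendsto (fun k => |T^[k] n|) atTop atTop

/-- The number of odd terms among the first `k` terms of the trajectory of `n`. -/
def odd (k : ℕ) (n : ℤ) : ℕ := ((range k).filter fun j => (T^[j] n) % 2 = 1).card

/-- `w` is the asymptotic constant of the trajectory of `n`: `2^k T^k(n) / 3^(odd k n)` tends to `w`. -/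
def IsConstant (n : ℤ) (w : ℝ) : Prop :=
  Tendsto (fun k => (2 : ℝ) ^ k * (T^[k] n : ℤ) / 3 ^ (odd k n)) atTop (nhds w)

/-- No two of the trajectories of the elements of `D` have a common element. -/
def Separate (D : Finset ℤ) : Prop :=
  ∀ n ∈ D, ∀ m ∈ D, ∀ i j : ℕ, T^[i] n = T^[j] m → n = m

theorem T_eq : T = Pool.Agent.H622.SG.T 1 := rfl

theorem lib_T : T = Pool.Agent.Results.MP_ff4775_nt.AsymptoticsBelowEntropy.T := rfl

/-- Let `β = H(log 2 / log 3) / log 2 = 0.9499...`, `H` the binary entropy. There are real numbers `w n` for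
the integers `n` and `η` strictly below `β` such that `w n ≠ 0` is the asymptotic constant of the trajectory
of `n` for all `n` with a divergent trajectory, and: (1) there is `C` such that for every finite set `D` of
integers with divergent trajectories no two of which have a common element, and all `0 < e ≤ 1`, at most
`C e ^ (-η)` of the `n` in `D` have `|log |w n / n|| ≥ e`; (2) for every `s > η` there is `C` such that for
every such `D` the sum of `|log |w n / n|| ^ s` over `D` is at most `C`. -/
theorem result : ∃ (w : ℤ → ℝ) (η : ℝ), (∀ n, Divergent n → w n ≠ 0 ∧ IsConstant n (w n)) ∧ 0 < η ∧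
    η < Real.binEntropy (Real.log 2 / Real.log 3) / Real.log 2 ∧
    (∃ C : ℝ, ∀ D : Finset ℤ, (∀ n ∈ D, Divergent n) → Separate D → ∀ e : ℝ, 0 < e → e ≤ 1 →
      (Set.ncard {n : ℤ | n ∈ D ∧ e ≤ |Real.log (|w n / n|)|} : ℝ) ≤ C * e ^ (-η)) ∧
    ∀ s : ℝ, η < s → ∃ C : ℝ, ∀ D : Finset ℤ, (∀ n ∈ D, Divergent n) → Separate D →
      ∑ n ∈ D, |Real.log (|w n / n|)| ^ s ≤ C := by
  classical
  -- the constants
  have hw : ∀ n : ℤ, ∃ w : ℝ, Divergent n → w ≠ 0 ∧ IsConstant n w := by
    intro n
    by_cases h : Divergent n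
    · obtain ⟨η, A, -, hlib⟩ := Pool.Agent.Results.MP_ff4775_nt.AsymptoticsBelowEntropy.result
      obtain ⟨w, h1, h2, -⟩ := hlib n h
      exact ⟨w, fun _ => ⟨h1, h2⟩⟩
    · exact ⟨0, fun h' => absurd h' h⟩
  choose w hw using hw
  obtain ⟨η, A, hη0, hη1, hη, hA, hcnt, hbd⟩ := Pool.Agent.H622.RT.final
  have hinj : ∀ n, Divergent n → Function.Injective (fun k => T^[k] n) := fun n h =>
    Pool.Agent.Results.MP_ff4775_nt.AsymptoticsBelowEntropy.injective_of_tendsto h
  have h3 : ∀ n, Divergent n → ∀ j, (3 : ℝ) ≤ |((T^[j] n : ℤ) : ℝ)| := fun n h j =>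
    Pool.Agent.Results.MP_ff4775_nt.AsymptoticsBelowEntropy.three_le (hinj n h) j
  -- the deviations converge
  have hlim : ∀ n, Divergent n → Tendsto (fun k => Pool.Agent.H622.RG.dev
      (Pool.Agent.H622.SG.gc 1 odd_one) k n) atTop (nhds |Real.log (|w n / n|)|) := by
    intro n hn
    obtain ⟨h1, h2⟩ := hw n hn
    have hne : ∀ j, ((T^[j] n : ℤ) : ℝ) ≠ 0 := fun j => by
      have := h3 n hn j
      intro h0
      rw [h0, abs_zero] at this
      linarith
    have hn0 : (n : ℝ) ≠ 0 := hne 0
    have h4 : Tendsto (fun k => Real.log |(2 : ℝ) ^ k * (T^[k] n : ℤ) / 3 ^ (odd k n)|) atTop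
        (nhds (Real.log |w n|)) :=
      (Real.continuousAt_log (abs_pos.2 h1).ne').tendsto.comp h2.abs
    have h5 : Real.log (|w n / n|) = Real.log |w n| - Real.log |(n : ℝ)| := by
      rw [abs_div, Real.log_div (abs_pos.2 h1).ne' (abs_pos.2 hn0).ne']
    rw [h5]
    refine Tendsto.congr ?_ (h4.sub_const (Real.log |(n : ℝ)|)).abs
    intro k
    unfold Pool.Agent.H622.RG.dev
    rw [Pool.Agent.H622.SG.gc_T, Pool.Agent.H622.SG.gc_lg, ← T_eq]
    congr 1
    have h6 : |((T^[k] n : ℤ) : ℝ)| ≠ 0 := (abs_pos.2 (hne k)).ne'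
    rw [abs_div, abs_mul, abs_pow, abs_pow, abs_of_pos (show (0 : ℝ) < 2 by norm_num),
      abs_of_pos (show (0 : ℝ) < 3 by norm_num), Real.log_div (by positivity) (by positivity),
      Real.log_mul (by positivity) h6, Real.log_pow, Real.log_pow]
    have h7 : (odd k n : ℝ) = (((range k).filter fun j => (T^[j] n) % 2 = 1).card : ℝ) := rfl
    rw [h7]
    ring
  have hcount : ∀ D : Finset ℤ, (∀ n ∈ D, Divergent n) → Separate D → ∀ e : ℝ, 0 < e → e ≤ 1 →
      ∀ G : Finset ℤ, G ⊆ D → (∀ n ∈ G, e ≤ |Real.log (|w n / n|)|) →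
        (G.card : ℝ) ≤ (A * 2 ^ η) * e ^ (-η) := by
    intro D hD hsep e he he1 G hG hGe
    have h1 := hcnt G (fun x hx => Or.inr (hinj x (hD x (hG hx))))
      (fun x hx y hy i j h => hsep x (hG hx) y (hG hy) i j h) (e / 2) (by linarith) (by linarith)
      (by
        intro x hx
        have h2 := hlim x (hD x (hG hx))
        have h4 : e / 2 < |Real.log (|w x / x|)| := by
          have := hGe x hx
          linarith
        obtain ⟨k, hk⟩ := (h2.eventually (lt_mem_nhds h4)).exists
        exact ⟨k, (hinj x (hD x (hG hx))).injOn, hk.le⟩)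
    refine h1.trans (le_of_eq ?_)
    rw [Real.div_rpow he.le (by norm_num), Real.rpow_neg (show (0 : ℝ) ≤ 2 by norm_num), div_inv_eq_mul]
    ring
  refine ⟨w, η, hw, hη0, hη, ⟨A * 2 ^ η, ?_⟩, ?_⟩
  · intro D hD hsep e he he1
    have h4 : {n : ℤ | n ∈ D ∧ e ≤ |Real.log (|w n / n|)|} =
        ((D.filter fun n : ℤ => e ≤ |Real.log (|w n / n|)| : Finset ℤ) : Set ℤ) := by
      ext x
      simp
    rw [h4, Set.ncard_coe_finset]
    apply hcount D hD hsep e he he1 _ (filter_subset _ _)
    intro n hn
    rw [mem_filter] at hn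
    exact hn.2
  · intro s hs
    set C0 : ℝ := A + 1 with hC0
    refine ⟨C0 ^ s * (A * 2 ^ η * C0 ^ η) * (C0 / 2) ^ (-η) / (1 - 2 ^ (η - s)), ?_⟩
    intro D hD hsep
    apply Pool.Agent.H622.SG.dyadic D (fun n : ℤ => |Real.log (|w n / n|)|) C0 (A * 2 ^ η * C0 ^ η) η s
      (by linarith) (by positivity) hη0 hs
    · intro n hn
      refine ⟨abs_nonneg _, ?_⟩
      have h4 := le_of_tendsto (hlim n (hD n hn))
        (Eventually.of_forall fun k => hbd n (hinj n (hD n hn)) (h3 n (hD n hn)) k)
      linarith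
    · intro e he _ G hG hGe
      have hC01 : 1 ≤ C0 := by linarith
      rcases le_or_gt e 1 with h1 | h1
      · refine (hcount D hD hsep e he h1 G hG hGe).trans ?_
        apply mul_le_mul_of_nonneg_right _ (by positivity)
        have : 1 ≤ C0 ^ η := Real.one_le_rpow hC01 hη0.le
        have h5 : 0 < A * 2 ^ η := by positivity
        nlinarith
      · have h6 := hcount D hD hsep 1 one_pos le_rfl G hG (fun n hn => h1.le.trans (hGe n hn))
        rw [Real.one_rpow, mul_one] at h6
        by_cases hGn : G.Nonempty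
        · obtain ⟨n, hn⟩ := hGn
          have h7 := le_of_tendsto (hlim n (hD n (hG hn)))
            (Eventually.of_forall fun k => hbd n (hinj n (hD n (hG hn))) (h3 n (hD n (hG hn))) k)
          have h8 : e ≤ C0 := by linarith [hGe n hn]
          have h9 : 1 ≤ C0 ^ η * e ^ (-η) := by
            rw [Real.rpow_neg he.le, ← div_eq_mul_inv, ← Real.div_rpow (by linarith) he.le]
            exact Real.one_le_rpow (by rw [le_div_iff₀ he]; linarith) hη0.le
          have h10 : 0 < A * 2 ^ η := by positivity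
          calc (G.card : ℝ) ≤ A * 2 ^ η := h6
            _ = A * 2 ^ η * 1 := by ring
            _ ≤ A * 2 ^ η * (C0 ^ η * e ^ (-η)) := mul_le_mul_of_nonneg_left h9 h10.le
            _ = A * 2 ^ η * C0 ^ η * e ^ (-η) := by ring
        · rw [not_nonempty_iff_eq_empty] at hGn
          rw [hGn, card_empty, Nat.cast_zero]
          positivity

end Pool.Agent.Results.MP_ff4775_nt.AllDivergentTrajectories
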