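import Pool.Agent.H620.Inf2.Side
import Pool.Agent.H620.Inf2.Depth

/-!
# Divergent trajectories of the `3x+1` map and circuits of small depth

Let `T` be the map `n / 2`, `(3 n + 1) / 2` on the integers, and for `s = 1` or `s = -1` let `Div s` be the set of the positive
integers `n` such that the trajectory of `s n` is divergent. Suppose that there is a divergent trajectory on the side `s` and
let `0 < γ < 1 / 2`. Then:

(a) The total influence of `Div s` on the `k` lowest binary digits, that is the mean number of the binary digits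
of `n < 2 ^ k` whose change moves `n` from `Div s` to the complement or back, is larger than `k ^ γ` for infinitely many `k`.

(b) For infinitely many `k` and all `D ≥ 2` with `(D - 1) (log log k + 1) ≤ γ log k`, each circuit of depth at most `D` (with gates
NOT, AND, OR of unbounded fan-in) and size at most `exp (k ^ (γ / (D - 1)))` is wrong about the membership in `Div s` for
more than `2 ^ k / k ^ (1 - γ)` of the `n < 2 ^ k`.

(c) So there is no divergent trajectory if and only if both sets `Div 1`, `Div (-1)` are in (nonuniform) `AC0`; also if and only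
if both are decided by circuits of polynomial size and of depth `a log k / log log k`, for some `a < 1 / 2`; also if and only if
both can be decided up to a small proportion `1 / k ^ (1 - γ)` of exceptions by circuits as in (b).

Proof. (b) follows from (a) and from the bound of Linial, Mansour, Nisan and Boppana for the total influence of circuits of
small depth. For (a), suppose that the total influence is small. Then there is a window `[J, J + b)` of digits, of the
length `b = k ^ δ'`, whose influences are small. Now the values after `J` steps for `n = 2 ^ J U + L` are of the form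
`3 ^ o U + v`, for `0 ≤ v < 3 ^ o`, and the values of two lower parts `L`, `L'` with `v`, `v'` near to
each other coalesce after `b` steps for at least half of the digits in the window. So the membership
of `n` is given, for most `n`, by the majority in the part of the partition of the `L` by `o` and by the quotient of `v` by
`3 ^ μ`. Comparing two such partitions, with pairs of levels `{o, o + 1}` shifted by one, one finds that the membership is a
function of the integer part `q` of `3 ^ (o₀ - μ) n / 2 ^ J` only, for most `n < 2 ^ k`, and the same as that of `3 ^ μ q + r`.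
The composition of such statements through all the scales contradicts the existence of the natural density of `Div s`,
which is neither `0` nor `1`.
-/

set_option autoImplicit false

namespace Pool.Agent.Results.MP_ff4775_nt.DivergentSetsCircuits

open Filter
open DomAC0 (Circuit)

/-- The `3x+1` map on the integers. -/
def T (x : ℤ) : ℤ := if x % 2 = 0 then x / 2 else (3 * x + 1) / 2

/-- The trajectory of `x` is divergent. -/
def Diverges (x : ℤ) : Prop := Tendsto (fun k : ℕ => |T^[k] x|) atTop atTop

/-- The set of the positive integers `n` such that the trajectory of `s n` is divergent, for `s = 1` or `s = -1`. -/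
def Div (s : ℤ) : Set ℕ := {n | 1 ≤ n ∧ Diverges (s * (n : ℤ))}

/-- The `k` lowest binary digits of `n`. -/
def digits (k n : ℕ) : Fin k → Bool := fun i => n.testBit i

/-- The total influence of `S` on the integers with `k` binary digits: the mean, for `n < 2 ^ k`, of the number of the
`i < k` such that exactly one of `n` and the integer `n xor 2 ^ i`, obtained by changing the digit `i` of `n`, is in `S`. -/
noncomputable def influence (S : Set ℕ) (k : ℕ) : ℝ :=
  ({p : ℕ × ℕ | p.1 < 2 ^ k ∧ p.2 < k ∧ ¬ (p.1 ∈ S ↔ p.1 ^^^ 2 ^ p.2 ∈ S)}.ncard : ℝ) / 2 ^ k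

/-- The number of the `n < 2 ^ k` for which the circuit `Γ` is wrong about the membership in `S`. -/
noncomputable def errors (S : Set ℕ) {k : ℕ} (Γ : Circuit (Fin k)) : ℕ :=
  {n : ℕ | n < 2 ^ k ∧ ¬ (Γ.eval (digits k n) = true ↔ n ∈ S)}.ncard

/-- `S` is hard: for each `0 < c < 1 / 2`, the total influence of `S` is larger than `k ^ c` for infinitely many `k`, and, for
infinitely many `k` and all `D ≥ 2` with `(D - 1) (log log k + 1) ≤ c log k`, each circuit of depth at most `D` and size at
most `exp (k ^ (c / (D - 1)))` is wrong about the membership in `S` for more than `2 ^ k / k ^ (1 - c)` of the `n < 2 ^ k`. -/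
def Hard (S : Set ℕ) : Prop := ∀ c : ℝ, 0 < c → c < 1 / 2 →
  (∃ᶠ k : ℕ in atTop, (k : ℝ) ^ c < influence S k) ∧
  ∃ᶠ k : ℕ in atTop, ∀ D : ℕ, 2 ≤ D → ((D : ℝ) - 1) * (Real.log (Real.log k) + 1) ≤ c * Real.log k →
    ∀ Γ : Circuit (Fin k), Γ.depth ≤ D → (Γ.size : ℝ) ≤ Real.exp ((k : ℝ) ^ (c / ((D : ℝ) - 1))) →
      (2 : ℝ) ^ k / (k : ℝ) ^ (1 - c) < errors S Γ

/-- `S` is in `AC0`: the membership of the integers `1 ≤ n < 2 ^ k` is decided by circuits of constant depth and polynomial
size. -/
def AC0 (S : Set ℕ) : Prop :=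
  ∃ D A : ℕ, ∀ k : ℕ, 1 ≤ k → ∃ Γ : Circuit (Fin k), Γ.depth ≤ D ∧ Γ.size ≤ k ^ A ∧
    ∀ n, 1 ≤ n → n < 2 ^ k → (Γ.eval (digits k n) = true ↔ n ∈ S)

/-- For all large `k`, the membership of the integers `1 ≤ n < 2 ^ k` in `S` is decided by circuits of polynomial size and
of depth at most `a log k / log log k`, where `a < 1 / 2`. -/
def Poly (S : Set ℕ) : Prop :=
  ∃ (A : ℕ) (a : ℝ), a < 1 / 2 ∧ ∀ᶠ k : ℕ in atTop, ∃ Γ : Circuit (Fin k), Γ.size ≤ k ^ A ∧
    (Γ.depth : ℝ) ≤ a * (Real.log k / Real.log (Real.log k)) ∧
    ∀ n, 1 ≤ n → n < 2 ^ k → (Γ.eval (digits k n) = true ↔ n ∈ S)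

/-- For some `0 < c < 1 / 2` and all large `k` there are a `D ≥ 2` with `(D - 1) (log log k + 1) ≤ c log k` and a circuit of
depth at most `D` and size at most `exp (k ^ (c / (D - 1)))` that is wrong about the membership in `S` for at most
`2 ^ k / k ^ (1 - c)` of the `n < 2 ^ k`. -/
def Approx (S : Set ℕ) : Prop :=
  ∃ c : ℝ, 0 < c ∧ c < 1 / 2 ∧ ∀ᶠ k : ℕ in atTop, ∃ D : ℕ, 2 ≤ D ∧
    ((D : ℝ) - 1) * (Real.log (Real.log k) + 1) ≤ c * Real.log k ∧
    ∃ Γ : Circuit (Fin k), Γ.depth ≤ D ∧ (Γ.size : ℝ) ≤ Real.exp ((k : ℝ) ^ (c / ((D : ℝ) - 1))) ∧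
      (errors S Γ : ℝ) ≤ (2 : ℝ) ^ k / (k : ℝ) ^ (1 - c)

open Pool.Agent.H620

theorem div_T (x : ℤ) : Diverges (T x) ↔ Diverges x := by
  unfold Diverges
  rw [← tendsto_add_atTop_iff_nat (f := fun k : ℕ => |T^[k] x|) 1]
  simp only [Function.iterate_succ_apply]

theorem inv : Pool.Agent.H499R2.ND.Inv 1 {x | Diverges x} := by
  intro x
  exact (div_T x).symm

theorem not_div {x : ℤ} (h : ∀ k : ℕ, |T^[k] x| ≤ 2) : ¬ Diverges x := by
  intro hd
  obtain ⟨k, hk⟩ := (hd.eventually_ge_atTop 3).exists
  have := h k
  omega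

theorem one_not {s : ℤ} (hs : s = 1 ∨ s = -1) : ¬ Diverges s := by
  apply not_div
  intro k
  rcases hs with rfl | rfl
  · have h : T^[k] 1 = 1 ∨ T^[k] 1 = 2 := by
      induction k with
      | zero => left; rfl
      | succ k ih =>
        rw [Function.iterate_succ_apply']
        rcases ih with h | h
        · right; rw [h]; rfl
        · left; rw [h]; rfl
    rcases h with h | h <;> rw [h] <;> norm_num
  · have h : T^[k] (-1) = -1 := by
      induction k with
      | zero => rfl
      | succ k ih => rw [Function.iterate_succ_apply', ih]; rfl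
    rw [h]; norm_num

theorem large {s : ℤ} (hs : s = 1 ∨ s = -1) (h : (Div s).Nonempty) : Inf2.Large (fun n => n ∈ Div s) := by
  obtain ⟨m, hm, hmd⟩ := h
  have hss : s * s = 1 := by rcases hs with rfl | rfl <;> norm_num
  refine Inf2.Large.congr (g := fun n : ℕ => s * (n : ℤ) ∈ {x | Diverges x}) (fun n hn => ?_) fun η hη =>
    Inf2.side_influence hs inv ⟨s * m, ?_, hmd⟩ ⟨s, ?_, one_not hs⟩ η hη
  · exact ⟨fun g => g.2, fun g => ⟨hn, g⟩⟩
  · rw [← mul_assoc, hss, one_mul]; exact_mod_cast hm
  · rw [hss]; norm_num

theorem no_div_iff : (¬ ∃ x : ℤ, Diverges x) ↔ ∀ s : ℤ, (s = 1 ∨ s = -1) → Div s = ∅ := by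
  constructor
  · intro h s _
    rw [Set.eq_empty_iff_forall_notMem]
    rintro n ⟨_, hn⟩
    exact h ⟨_, hn⟩
  · rintro h ⟨x, hx⟩
    rcases lt_trichotomy x 0 with h0 | h0 | h0
    · have h1 : x.natAbs ∈ Div (-1) := by
        refine ⟨by omega, ?_⟩
        have e : (-1 : ℤ) * (x.natAbs : ℤ) = x := by omega
        rw [e]; exact hx
      rw [h (-1) (Or.inr rfl)] at h1
      exact h1
    · subst h0
      apply not_div (x := 0) (fun k => ?_) hx
      have h : T^[k] 0 = 0 := by
        induction k with
        | zero => rfl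
        | succ k ih => rw [Function.iterate_succ_apply', ih]; rfl
      rw [h]; norm_num
    · have h1 : x.natAbs ∈ Div 1 := by
        refine ⟨by omega, ?_⟩
        have e : (1 : ℤ) * (x.natAbs : ℤ) = x := by omega
        rw [e]; exact hx
      rw [h 1 (Or.inl rfl)] at h1
      exact h1

/-- (1) For `s = 1` and `s = -1`: if there is a divergent trajectory on the side `s`, then `Div s` is hard. (2) The following are
equivalent: there is no divergent trajectory; both `Div 1` and `Div (-1)` are in `AC0`; both are decided by circuits of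
polynomial size and depth at most `a log k / log log k`, where `a < 1 / 2`; both are decided up to a proportion
`1 / k ^ (1 - c)` of exceptions by circuits of the size and depth in the definition of `Hard`. -/
theorem result :
    (∀ s : ℤ, (s = 1 ∨ s = -1) → (Div s).Nonempty → Hard (Div s)) ∧
    List.TFAE [¬ ∃ x : ℤ, Diverges x, ∀ s : ℤ, (s = 1 ∨ s = -1) → AC0 (Div s), ∀ s : ℤ, (s = 1 ∨ s = -1) → Poly (Div s),
      ∀ s : ℤ, (s = 1 ∨ s = -1) → Approx (Div s)] := by
  refine ⟨fun s hs hne γ hγ0 hγ => ⟨Inf2.large_infl (large hs hne) hγ, Inf2.large_depth (large hs hne) hγ0 hγ⟩, ?_⟩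
  rw [no_div_iff]
  have h1 : ∀ s : ℤ, (s = 1 ∨ s = -1) → List.TFAE [Div s = ∅, Inf2.AC0 (Div s), Inf2.Poly (Div s),
      Inf2.Approx (Div s)] := fun s hs => Inf2.tfae_of (S := Div s)
    (fun g => Inf2.AC0_none (by rw [g]; exact fun n _ h => h))
    (fun g => large hs (Set.nonempty_iff_ne_empty.2 g))
  tfae_have 1 → 2 := fun h s hs => ((h1 s hs).out 0 1).1 (h s hs)
  tfae_have 2 → 3 := fun h s hs => ((h1 s hs).out 1 2).1 (h s hs)
  tfae_have 3 → 4 := fun h s hs => ((h1 s hs).out 2 3).1 (h s hs)
  tfae_have 4 → 1 := fun h s hs => ((h1 s hs).out 3 0).1 (h s hs)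
  tfae_finish

end Pool.Agent.Results.MP_ff4775_nt.DivergentSetsCircuits
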