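import Pool.Agent.H620.Gen.Side

/-!
# The set of the starting points of divergent trajectories is not near to a morphic set, unless it is empty

Let `T` be the map `n / 2`, `(3 n + 1) / 2` on the integers, and for `s = 1` or `s = -1` let `Div s` be the set of the positive
integers `n` such that the trajectory of `s n` is divergent. A set of integers is called morphic if its indicator sequence
is a morphic word: the image, under a map from the letters to `{0, 1}`, of the infinite fixed point of a morphism `σ` with
`σ(a) = a u`, over a finite alphabet. The automatic sets in all bases are morphic, and so are the sets recognised by automata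
which read the Fibonacci representation or any abstract numeration system based on a regular language, the sets whose words
are Sturmian with a quadratic slope, the set of the squares, etc.

Theorem. If there is a divergent trajectory on the side `s`, then no morphic set agrees with `Div s` up to
`O (N / (√log N (log log N) ^ a))` of the `n ≤ N`, for any `a > 1`; in particular `Div s` is not morphic. So the following are
equivalent: there is no divergent trajectory; both `Div 1` and `Div (-1)` are morphic; both agree with morphic sets up to so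
many exceptions.

Proof. Let `C w N` be the number of the `i < N` with `w i ≠ w (i+1)`. For an invariant set this is `O (N / √log N)` (coalescence
of the trajectories of neighbours), so `C w N = o(N)` if `w` is near to an invariant set. For a morphic word `w` this
implies `C w N = O (N / log N)`: the numbers `f k` of letters and `g k` of changes in the `k`-th image of the first letter are of
the form `u (M ^ k v)` for linear maps `M` of finite dimensional spaces, and two such sequences with `g k = o (f k)` have
`g k = O (f k / k)`. But the boundary of a nontrivial invariant set is not so thin (`Gen.side_not_thin`): otherwise the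
composition of structures at all scales contradicts the existence of the natural density of the set.
-/

set_option autoImplicit false

namespace Pool.Agent.Results.MP_ff4775_nt.DivergentSetsMorphic

open Filter

/-- The `3x+1` map on the integers. -/
def T (x : ℤ) : ℤ := if x % 2 = 0 then x / 2 else (3 * x + 1) / 2

/-- The trajectory of `x` is divergent. -/
def Diverges (x : ℤ) : Prop := Tendsto (fun k : ℕ => |T^[k] x|) atTop atTop

/-- The set of the positive integers `n` such that the trajectory of `s n` is divergent, for `s = 1` or `s = -1`. -/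
def Div (s : ℤ) : Set ℕ := {n | 1 ≤ n ∧ Diverges (s * (n : ℤ))}

/-- The image of a word `W` under the morphism that replaces each letter `b` by the word `σ b`. -/
def subst {A : Type} (σ : A → List A) (W : List A) : List A := W.flatMap σ

/-- Morphic sets: there are a finite alphabet `A`, a morphism `σ` with nonempty words `σ b`, a letter `a` such that
`σ a` is `a` followed by a nonempty word, and a set `G` of letters such that `i ∈ R` if and only if the letter with
the index `i` of `σ ^ k a` is in `G`, for all `k` and all indices `i` of letters of `σ ^ k a`. -/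
def Morphic (R : Set ℕ) : Prop :=
  ∃ (A : Type) (_ : Finite A) (σ : A → List A) (a : A) (G : A → Prop), (∀ b, σ b ≠ []) ∧
    (∃ u, u ≠ [] ∧ σ a = a :: u) ∧
    ∀ (k i : ℕ) (hi : i < ((subst σ)^[k] [a]).length), i ∈ R ↔ G ((subst σ)^[k] [a])[i]

/-- The number of the integers `1 ≤ n ≤ N` which are in exactly one of the sets `S`, `R`. -/
noncomputable def dist (S R : Set ℕ) (N : ℕ) : ℕ := {n : ℕ | 1 ≤ n ∧ n ≤ N ∧ ¬ (n ∈ S ↔ n ∈ R)}.ncard

/-- The bound `N / (√log N (log log N) ^ a)`. -/
noncomputable def h (a : ℝ) (N : ℕ) : ℝ := N / (√(Real.log N) * Real.log (Real.log N) ^ a)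

/-- `S` is near to a morphic set: for some `a > 1` and `K` it agrees with a morphic set, for all large `N`, up to at most
`K N / (√log N (log log N) ^ a)` of the `1 ≤ n ≤ N`. -/
def NearMorphic (S : Set ℕ) : Prop :=
  ∃ (R : Set ℕ) (a K : ℝ), Morphic R ∧ 1 < a ∧ ∀ᶠ N : ℕ in atTop, (dist S R N : ℝ) ≤ K * h a N

open Pool.Agent.H620

theorem div_T (x : ℤ) : Diverges (T x) ↔ Diverges x := by
  unfold Diverges
  rw [← tendsto_add_atTop_iff_nat (f := fun k : ℕ => |T^[k] x|) 1]
  simp only [Function.iterate_succ_apply]

theorem inv : Pool.Agent.H499R2.ND.Inv 1 {x | Diverges x} := by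
  intro x
  exact (div_T x).symm

theorem not_div {x : ℤ} (h : ∀ k : ℕ, |T^[k] x| ≤ 2) : ¬ Diverges x := by
  intro hd
  obtain ⟨k, hk⟩ := (hd.eventually_ge_atTop 3).exists
  have := h k
  omega

theorem one_not {s : ℤ} (hs : s = 1 ∨ s = -1) : ¬ Diverges s := by
  apply not_div
  intro k
  rcases hs with rfl | rfl
  · have h : T^[k] 1 = 1 ∨ T^[k] 1 = 2 := by
      induction k with
      | zero => left; rfl
      | succ k ih =>
        rw [Function.iterate_succ_apply']
        rcases ih with h | h
        · right; rw [h]; rfl
        · left; rw [h]; rfl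
    rcases h with h | h <;> rw [h] <;> norm_num
  · have h : T^[k] (-1) = -1 := by
      induction k with
      | zero => rfl
      | succ k ih => rw [Function.iterate_succ_apply', ih]; rfl
    rw [h]; norm_num

theorem dist_eq {s : ℤ} (R : Set ℕ) (N : ℕ) :
    dist (Div s) R N = {n : ℕ | 1 ≤ n ∧ n ≤ N ∧ ¬ (s * (n : ℤ) ∈ {x | Diverges x} ↔ n ∈ R)}.ncard := by
  unfold dist
  congr 1
  ext n
  simp only [Set.mem_ofPred_eq]
  constructor
  · rintro ⟨h1, h2, h3⟩
    exact ⟨h1, h2, fun g => h3 ⟨fun g' => g.1 g'.2, fun g' => ⟨h1, g.2 g'⟩⟩⟩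
  · rintro ⟨h1, h2, h3⟩
    exact ⟨h1, h2, fun g => h3 ⟨fun g' => g.1 ⟨h1, g'⟩, fun g' => (g.2 g').2⟩⟩

theorem near {s : ℤ} (hs : s = 1 ∨ s = -1) (hne : (Div s).Nonempty) {a : ℝ} (ha : 1 < a) {R : Set ℕ} (hR : Morphic R)
    (K : ℝ) (hK : ∀ᶠ N : ℕ in atTop, (dist (Div s) R N : ℝ) ≤ K * h a N) : False := by
  obtain ⟨m, hm, hmd⟩ := hne
  have hss : s * s = 1 := by rcases hs with rfl | rfl <;> norm_num
  refine Gen.side_not_near hs inv ⟨s * m, ?_, hmd⟩ ⟨s, ?_, one_not hs⟩ ha (w := fun n => n ∈ R) hR K ?_
  · rw [← mul_assoc, hss, one_mul]; exact_mod_cast hm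
  · rw [hss]; norm_num
  · filter_upwards [hK] with N h3
    rw [dist_eq] at h3
    exact h3

theorem morphic_empty : Morphic ∅ := by
  refine ⟨Unit, inferInstance, fun _ => [(), ()], (), fun _ => False, by simp, ⟨[()], by simp, rfl⟩, ?_⟩
  intro k i hi
  simp

theorem Morphic.near {R : Set ℕ} (h : Morphic R) : NearMorphic R := by
  refine ⟨R, 2, 0, h, by norm_num, Eventually.of_forall fun N => ?_⟩
  have : {n : ℕ | 1 ≤ n ∧ n ≤ N ∧ ¬ (n ∈ R ↔ n ∈ R)} = ∅ := by
    ext n
    simp
  unfold dist
  rw [this]
  simp

theorem no_div_iff : (¬ ∃ x : ℤ, Diverges x) ↔ ∀ s : ℤ, (s = 1 ∨ s = -1) → Div s = ∅ := by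
  constructor
  · intro h s _
    rw [Set.eq_empty_iff_forall_notMem]
    rintro n ⟨_, hn⟩
    exact h ⟨_, hn⟩
  · rintro h ⟨x, hx⟩
    rcases lt_trichotomy x 0 with h0 | h0 | h0
    · have h1 : x.natAbs ∈ Div (-1) := by
        refine ⟨by omega, ?_⟩
        have e : (-1 : ℤ) * (x.natAbs : ℤ) = x := by omega
        rw [e]; exact hx
      rw [h (-1) (Or.inr rfl)] at h1
      exact h1
    · subst h0
      apply not_div (x := 0) (fun k => ?_) hx
      have h : T^[k] 0 = 0 := by
        induction k with
        | zero => rfl
        | succ k ih => rw [Function.iterate_succ_apply', ih]; rfl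
      rw [h]; norm_num
    · have h1 : x.natAbs ∈ Div 1 := by
        refine ⟨by omega, ?_⟩
        have e : (1 : ℤ) * (x.natAbs : ℤ) = x := by omega
        rw [e]; exact hx
      rw [h 1 (Or.inl rfl)] at h1
      exact h1

/-- (1) Let `s = 1` or `s = -1`. If there is a divergent trajectory on the side `s`, then for all morphic sets `R` and all
`a > 1` and `K`, more than `K N / (√log N (log log N) ^ a)` of the `1 ≤ n ≤ N` are in exactly one of the sets `Div s`, `R`, for
infinitely many `N`. (2) The following are equivalent: there is no divergent trajectory; both `Div 1` and `Div (-1)` are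
morphic; both are near to morphic sets. -/
theorem result :
    (∀ s : ℤ, (s = 1 ∨ s = -1) → (Div s).Nonempty → ∀ R : Set ℕ, Morphic R → ∀ a : ℝ, 1 < a → ∀ K : ℝ,
      ∃ᶠ N : ℕ in atTop, K * h a N < dist (Div s) R N) ∧
    List.TFAE [¬ ∃ x : ℤ, Diverges x, ∀ s : ℤ, (s = 1 ∨ s = -1) → Morphic (Div s),
      ∀ s : ℤ, (s = 1 ∨ s = -1) → NearMorphic (Div s)] := by
  refine ⟨fun s hs hne R hR a ha K => ?_, ?_⟩
  · by_contra hcon
    rw [not_frequently] at hcon
    apply near hs hne ha hR K
    filter_upwards [hcon] with N hN
    exact not_lt.1 hN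
  · rw [no_div_iff]
    tfae_have 1 → 2 := fun h s hs => by
      rw [h s hs]
      exact morphic_empty
    tfae_have 2 → 3 := fun h s hs => (h s hs).near
    tfae_have 3 → 1 := fun h s hs => by
      by_contra hcon
      obtain ⟨R, a, K, hR, ha, hK⟩ := h s hs
      exact near hs (Set.nonempty_iff_ne_empty.2 hcon) ha hR K hK
    tfae_finish

end Pool.Agent.Results.MP_ff4775_nt.DivergentSetsMorphic
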