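import Mathlib
import Pool.Agent.H622.Gs10

set_option autoImplicit false

/-!
# The limiting distribution of the integers with large stopping time

The stopping time of `n` is the least `j` with `T^j n < n`. The integers with stopping time greater than `k`
have, as `k → ∞`, a limiting distribution on the 2-adic integers: for every `j` and `r` the proportion of the
residue class of `r` modulo `2^j` among them converges. The limit is computed: it is the law of the random walk
with the odd steps of probability `θ = log 2 / log 3`, conditioned to stay above its starting point (Doob's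
transform by a renewal function). It is a probability measure of exact dimension `H / log 2 = 0.9499...` on the
set of the 2-adic integers with infinite (coefficient) stopping time.
-/

namespace Pool.Agent.Results.MP_ff4775_nt.LimitLawOfLateIntegers

open Filter Topology Finset

/-- the accelerated `3x+1` map -/
def T (n : ℕ) : ℕ := if n % 2 = 0 then n / 2 else (3 * n + 1) / 2

/-- the stopping time of `n` is greater than `k`: none of `T n, …, T^k n` is smaller than `n` -/
def StoppingTimeGT (k n : ℕ) : Prop := ∀ j, 1 ≤ j → j ≤ k → n ≤ T^[j] n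

/-- the number of odd numbers among the first `j` terms `n, T n, …, T^(j-1) n` -/
def odds (j n : ℕ) : ℕ := ((range j).filter fun i => T^[i] n % 2 = 1).card

/-- the growth factors `3 ^ (odds i r) / 2 ^ i`, `i ≤ k`, are at least `1` -/
def Survives (k r : ℕ) : Prop := ∀ i ≤ k, 2 ^ i ≤ 3 ^ odds i r

/-- the growth factors `3 ^ (odds i r) / 2 ^ i`, `1 ≤ i ≤ k`, are less than `1` -/
def Falls (k r : ℕ) : Prop := ∀ i, 1 ≤ i → i ≤ k → 3 ^ odds i r < 2 ^ i

open scoped Classical in
/-- the number of the surviving residues modulo `2 ^ k` -/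
noncomputable def survivors (k : ℕ) : ℕ := ((range (2 ^ k)).filter fun n => Survives k n).card

open scoped Classical in
/-- the number of the surviving residues modulo `2 ^ k` in the residue class of `r` modulo `2 ^ j` -/
noncomputable def survivorsIn (j r k : ℕ) : ℕ :=
  ((range (2 ^ k)).filter fun n => n % 2 ^ j = r ∧ Survives k n).card

open scoped Classical in
/-- the number of the residues `r` modulo `2 ^ k` with `Falls k r` and `o` odd steps -/
noncomputable def B (k o : ℕ) : ℕ := ((range (2 ^ k)).filter fun r => Falls k r ∧ odds k r = o).card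

/-- the critical proportion of odd steps -/
noncomputable def θ : ℝ := Real.log 2 / Real.log 3

/-- the entropy (in natural units) of `θ` -/
noncomputable def H : ℝ := -(θ * Real.log θ) - (1 - θ) * Real.log (1 - θ)

/-- the probability that the critical random walk (steps `1 - θ` and `-θ` with the probabilities `θ` and
`1 - θ`) is negative up to the time `i`, and `≥ -u` at the time `i` -/
noncomputable def Vterm (u : ℝ) (i : ℕ) : ℝ :=
  ∑ o ∈ range (i + 1), if (i : ℝ) * θ - o ≤ u then (B i o : ℝ) * (θ ^ o * (1 - θ) ^ (i - o)) else 0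

/-- the harmonic function: a renewal function -/
noncomputable def V (u : ℝ) : ℝ := ∑' i, Vterm u i

open scoped Classical in
/-- the mass of the residue class of `r` modulo `2 ^ j` in the limiting distribution -/
noncomputable def mass (j r : ℕ) : ℝ :=
  if Survives j r then θ ^ odds j r * (1 - θ) ^ (j - odds j r) * V ((odds j r : ℝ) - j * θ) else 0

open scoped Classical in
/-- the positive integers `n ≤ x` with stopping time `> k` -/
noncomputable def late (k : ℕ) (x : ℝ) : Finset ℕ := (Icc 1 ⌊x⌋₊).filter (StoppingTimeGT k)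

namespace Aux

open Pool.Agent.H622.St Pool.Agent.H622.Gz

theorem T_eq : T = Pool.Agent.Helper894.Collatz.T := rfl

theorem odds_eq (k n : ℕ) : odds k n = Pool.Agent.Helper894.Collatz.od k n := by
  unfold odds Pool.Agent.Helper894.Collatz.od
  rw [Finset.card_filter]
  apply Finset.sum_congr rfl
  intro i _
  rw [← T_eq]
  rcases Nat.mod_two_eq_zero_or_one (T^[i] n) with h | h
  · rw [h]; rfl
  · rw [h]; rfl

theorem surv_eq (k n : ℕ) : Survives k n ↔ Surv k n := by
  unfold Survives Surv
  simp only [odds_eq]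

theorem falls_eq (k n : ℕ) : Falls k n ↔ Pool.Agent.H622.Gz.Falls k n := by
  unfold Falls Pool.Agent.H622.Gz.Falls
  simp only [odds_eq]

theorem survivors_eq (k : ℕ) : survivors k = Pool.Agent.H622.St.survivors k := by
  classical
  unfold survivors Pool.Agent.H622.St.survivors
  congr 1
  ext r
  simp only [mem_filter, surv_eq]

theorem survivorsIn_eq (j r k : ℕ) : survivorsIn j r k = At j r k := by
  classical
  unfold survivorsIn At
  congr 1
  ext n
  simp only [mem_filter, surv_eq]

theorem B_eq (k o : ℕ) : B k o = Bn k o := by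
  classical
  unfold B Bn cnt
  rw [card_filter]
  apply sum_congr rfl
  intro n _
  by_cases h : Falls k n ∧ odds k n = o
  · rw [if_pos h, ind_pos]
    rw [falls_eq, odds_eq] at h
    exact h
  · rw [if_neg h, ind_neg]
    rw [falls_eq, odds_eq] at h
    exact h

theorem th_eq : θ = th := rfl

theorem H_eq : H = He := by
  unfold He H
  rw [th_eq, Real.binEntropy, Real.log_inv, Real.log_inv]
  ring

theorem Vterm_eq (u : ℝ) (i : ℕ) : Vterm u i = Pool.Agent.H622.Gs.Rl (1 - th) u i := by
  have h := fun w => Pool.Agent.H622.Gz.Vf_eq w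
  unfold Vterm Pool.Agent.H622.Gs.Rl
  rw [← sum_range_reflect]
  apply sum_congr rfl
  intro o ho
  rw [mem_range] at ho
  rw [show i + 1 - 1 - o = i - o by omega, th_eq, B_eq]
  have e1 : ((i : ℝ) * th - ((i - o : ℕ) : ℝ) ≤ u) ↔ ((o : ℝ) - i * (1 - th) ≤ u) := by
    rw [Nat.cast_sub (by omega)]
    constructor <;> intro h <;> linarith
  simp only [e1]
  split_ifs
  · unfold Pool.Agent.H622.Gs.b
    have h1 := Pool.Agent.H622.Gs.Ep_eq (θ := th) i (i - o)
    rw [if_pos (show i - o ≤ i by omega), Ep_coeff, show i - (i - o) = o by omega] at h1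
    rw [← h1, show i - (i - o) = o by omega, sub_sub_cancel]
    push_cast
    ring
  · rfl

theorem V_eq (u : ℝ) : V u = Pool.Agent.H622.Gs.Vf (1 - th) u := by
  unfold V Pool.Agent.H622.Gs.Vf
  simp only [Vterm_eq]

theorem mass_eq (j r : ℕ) : mass j r = mu j r := by
  unfold mass mu
  rw [odds_eq, V_eq, th_eq]
  by_cases h : Surv j r
  · rw [if_pos h, if_pos ((surv_eq j r).2 h)]
  · rw [if_neg h, if_neg (fun h2 => h ((surv_eq j r).1 h2))]

theorem late_iff (k n : ℕ) : StoppingTimeGT k n ↔ Stays k n := by
  unfold StoppingTimeGT Stays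
  rw [T_eq]
  constructor
  · intro h j hj
    rcases Nat.eq_zero_or_pos j with h0 | h0
    · rw [h0]; exact le_rfl
    · exact h j h0 hj
  · exact fun h j _ hj => h j hj

open scoped Classical in
theorem late_eq (k : ℕ) (x : ℝ) : late k x = (Icc 1 ⌊x⌋₊).filter fun n => Stays k n := by
  unfold late
  apply filter_congr
  intro n _
  exact late_iff k n

end Aux

open Aux

open scoped Classical in
/-- THE LIMITING DISTRIBUTION OF THE INTEGERS WITH LARGE STOPPING TIME.
(1) The series of the renewal function `V` converges, `V` is at least one on `[0, ∞)`, nondecreasing, and it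
grows slower than every exponential function.
(2) The masses are consistent, so they define a probability measure on the 2-adic integers; its support is
the set where all the growth factors are at least one.
(3) The proportion of the residue class of `r` modulo `2 ^ j` among the surviving residues modulo `2 ^ k`
tends to `mass j r`, as `k → ∞`.
(4) The same for the integers `n ≤ x` with stopping time `> k`, as `k → ∞` and `x / 2 ^ k → ∞`.
(5) The measure is concentrated on the 2-adic integers whose proportion of odd steps is `θ`, with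
exponential speed.
(6) The measure has exact dimension `H / log 2`: the logarithm of the mass of a residue class modulo `2 ^ j` is
`-(H + o(1)) j`, up to a set of residue classes of exponentially small mass. -/
theorem result :
    ((∀ u : ℝ, Summable (Vterm u)) ∧ (∀ u : ℝ, 0 ≤ u → 1 ≤ V u) ∧ Monotone V ∧
      ∀ s : ℝ, 0 < s → s < 1 → ∃ C : ℝ, ∀ u : ℝ, V u ≤ C * s ^ (-u)) ∧
    (mass 0 0 = 1 ∧ (∀ j r : ℕ, 0 ≤ mass j r) ∧ (∀ j r : ℕ, 0 < mass j r ↔ Survives j r) ∧
      ∀ j r : ℕ, r < 2 ^ j → mass j r = mass (j + 1) r + mass (j + 1) (r + 2 ^ j)) ∧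
    (∀ j r : ℕ, r < 2 ^ j →
      Tendsto (fun k : ℕ => (survivorsIn j r k : ℝ) / survivors k) atTop (𝓝 (mass j r))) ∧
    (∀ (j r : ℕ) (ε : ℝ), r < 2 ^ j → 0 < ε → ∃ K : ℕ, ∀ (k : ℕ) (x : ℝ), K ≤ k → K * 2 ^ k ≤ x →
      (late k x).Nonempty ∧
      |(((late k x).filter fun n => n % 2 ^ j = r).card : ℝ) / (late k x).card - mass j r| ≤ ε) ∧
    (∀ ε : ℝ, 0 < ε → ∃ C c : ℝ, 0 < C ∧ 0 < c ∧ ∀ j : ℕ,
      ∑ r ∈ (range (2 ^ j)).filter (fun r => ε * j < |(odds j r : ℝ) - θ * j|), mass j r ≤
        C * Real.exp (-(c * j))) ∧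
    (∀ ε : ℝ, 0 < ε → ∃ C c : ℝ, 0 < C ∧ 0 < c ∧ ∀ j : ℕ,
      ∑ r ∈ (range (2 ^ j)).filter (fun r => ε * j < |Real.log (mass j r) + H * j|), mass j r ≤
        C * Real.exp (-(c * j))) := by
  refine ⟨⟨?_, ?_, ?_, ?_⟩, ⟨?_, ?_, ?_, ?_⟩, ?_, ?_, ?_, ?_⟩
  · intro u
    exact (Pool.Agent.H622.Gs.Rl_summable Pool.Agent.H622.Gz.Sl_th.flip u).congr fun i => (Vterm_eq u i).symm
  · intro u hu
    rw [V_eq]
    exact Pool.Agent.H622.Gs.Vf_ge_one Pool.Agent.H622.Gz.Sl_th.flip hu
  · intro u v huv
    rw [V_eq, V_eq]
    exact Pool.Agent.H622.Gs.Vf_mono Pool.Agent.H622.Gz.Sl_th.flip huv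
  · intro s hs hs1
    obtain ⟨C, -, h⟩ := Pool.Agent.H622.Gs.Vf_le Pool.Agent.H622.Gz.Sl_th.flip hs hs1
    exact ⟨C, fun u => by rw [V_eq]; exact h u⟩
  · rw [mass_eq]; exact Pool.Agent.H622.Gz.mu_zero
  · intro j r
    rw [mass_eq]; exact Pool.Agent.H622.Gz.mu_nonneg j r
  · intro j r
    constructor
    · intro h
      by_contra h2
      unfold mass at h
      rw [if_neg h2] at h
      exact lt_irrefl _ h
    · intro h
      have h1 := Pool.Agent.H622.St.th_pos
      have h2 : 0 < 1 - Pool.Agent.H622.St.th := by linarith [Pool.Agent.H622.St.th_lt_one]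
      have h3 := Pool.Agent.H622.Gs.Vf_ge_one Pool.Agent.H622.Gz.Sl_th.flip
        (Pool.Agent.H622.Gz.height_nonneg ((surv_eq j r).1 h))
      unfold mass
      rw [if_pos h, V_eq, odds_eq, th_eq]
      positivity
  · intro j r hr
    rw [mass_eq, mass_eq, mass_eq]
    exact Pool.Agent.H622.Gz.mu_split j r hr
  · intro j r hr
    rw [mass_eq]
    refine (Pool.Agent.H622.Gz.ratio hr).congr fun k => ?_
    rw [survivorsIn_eq, survivors_eq]
  · intro j r ε hr hε
    obtain ⟨K, hK⟩ := Pool.Agent.H622.Gz.integers_class hr hε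
    refine ⟨K, fun k x hk hx => ?_⟩
    obtain ⟨h1, h2⟩ := hK k x hk hx
    have hl := late_eq k x
    have h3 : 0 < (late k x).card := by rw [hl]; exact_mod_cast h1
    refine ⟨card_pos.1 h3, ?_⟩
    rw [mass_eq]
    have h4 : (late k x).filter (fun n => n % 2 ^ j = r) =
        (Icc 1 ⌊x⌋₊).filter fun n => n % 2 ^ j = r ∧ Pool.Agent.H622.St.Stays k n := by
      ext n
      rw [hl, mem_filter, mem_filter, mem_filter]
      tauto
    rw [h4, hl]
    exact h2
  · intro ε hε
    obtain ⟨C, c, hC, hc, h⟩ := Pool.Agent.H622.Gz.concentration hε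
    refine ⟨C, c, hC, hc, fun j => ?_⟩
    refine le_trans ?_ (h j)
    have e : ∑ r ∈ (range (2 ^ j)).filter (fun r => ε * j < |(odds j r : ℝ) - θ * j|), mass j r =
        ∑ r ∈ (range (2 ^ j)).filter (fun r => ε * j < |(odds j r : ℝ) - θ * j| ∧
          Pool.Agent.H622.St.Surv j r), mass j r := by
      rw [← filter_filter, sum_filter]
      rw [sum_filter, sum_filter]
      apply sum_congr rfl
      intro r _
      by_cases hS : Pool.Agent.H622.St.Surv j r
      · simp only [if_pos hS]
      · have : mass j r = 0 := by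
          unfold mass
          rw [if_neg (fun h2 => hS ((surv_eq j r).1 h2))]
        simp only [if_neg hS, this]
    rw [e]
    simp only [mass_eq]
    apply sum_le_sum_of_subset_of_nonneg
    · intro r hr
      rw [mem_filter] at hr ⊢
      refine ⟨hr.1, hr.2.2, ?_⟩
      have h5 := hr.2.1
      have h6 := Pool.Agent.H622.Gz.height_nonneg hr.2.2
      rw [odds_eq, mul_comm θ, th_eq, abs_of_nonneg h6] at h5
      exact h5
    · intro r _ _
      exact Pool.Agent.H622.Gz.mu_nonneg j r
  · intro ε hε
    obtain ⟨C, c, hC, hc, h⟩ := Pool.Agent.H622.Gz.dimension hε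
    refine ⟨C, c, hC, hc, fun j => ?_⟩
    refine le_trans ?_ (h j)
    simp only [mass_eq, H_eq]
    rw [sum_filter, sum_filter]
    apply sum_le_sum
    intro r _
    have h0 := Pool.Agent.H622.Gz.mu_nonneg j r
    rw [mul_comm Pool.Agent.H622.St.He]
    rcases h0.lt_or_eq with h1 | h1
    · by_cases h2 : ε * j < |Real.log (Pool.Agent.H622.Gz.mu j r) + j * Pool.Agent.H622.St.He|
      · rw [if_pos h2, if_pos ⟨h2, h1⟩]
      · rw [if_neg h2, if_neg (fun h3 => h2 h3.1)]
    · rw [← h1]
      split_ifs <;> exact le_rfl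

end Pool.Agent.Results.MP_ff4775_nt.LimitLawOfLateIntegers
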